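import Pool.Agent.Run7.h16.MA.Props

/-!
# Homological and numerical equivalence for products of abelian varieties with CM fields abelian over the
rational numbers and arbitrary varieties

Let `K i` (finitely many) be CM fields that are abelian over `ℚ`, and let `π i ∈ K i` be Weil numbers
for `p ^ a` (algebraic integers with all complex absolute values `p ^ (a / 2)`), such that

* (`NormsIndecomposable`) for each subfield `T` of `K i` which is cyclic over `ℚ` and not totally real,
  no positive power of the norm of `π i` to `T` is a product of elements of proper subfields of `T`;
* (`RealIntersections`) isomorphic subfields of two different fields `K i` are totally real.

(By the exact criterion `MP_021685_ag.AbelianFields` these are the families for which all Tate classes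
on all products of powers of the abelian varieties `A i` with the Frobenius endomorphisms `π i` are
generated by divisors.) Let `A` be an abelian variety over an extension of the field with `p ^ a`
elements, isogenous to a product of powers of the `A i`, and let `Z` be **any** smooth projective
variety over the same field, of any dimension, whose Frobenius eigenvalues `ρ` satisfy
(`NormUnrelated`):

* if a subfield `T` of some `K i`, cyclic over `ℚ` and not totally real, is isomorphic to a subfield
  `T'` of `ℚ(ρ)`, then some positive power of the norm of `ρ` to `T'` is a product of elements of proper
  subfields of `T'`.

This is true, for instance, if the fields `ℚ(ρ)` contain no subfield isomorphic to a non-real subfield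
of the `K i`; but `ℚ(ρ)` may contain the fields `K i` or be one of them, as long as the norms of `ρ`
are decomposable.

**Then homological and numerical equivalence coincide for the cycles of codimension `c` on `A × Z` if
and only if they coincide for the cycles of codimension `c - i` on `Z` for all `0 ≤ i ≤ dim A`**
(`HomNumTimesNorm`). So for all `A`, `Z` as above conjecture D for `A × Z` is equivalent to
conjecture D for `Z`. The statement is for Chow groups `C` of a class of varieties and a Weil
cohomology theory `H` with algebraically closed coefficients (`ℓ`-adic or crystalline cohomology with
extended coefficients); the framework and the deduction from the absence of multiplicative relations
are those of the starting files (helpers 484, 492, 550 and 1), where conditions on Galois groups or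
slope types are used and `ℚ(ρ)` must contain nothing which is related to the `K i`.

The proof. Suppose that a product of conjugates of the `π i` and of a power of `ρ` is a power of
`p ^ a`. Let `c` be the antisymmetric part of the exponents that belong to `K i`, a function on the
Galois group `A` of `K i`, and let `θ` be an odd character of `A`. We sum the `p`-adic valuations of
the conjugates of the relation, multiplied by the values of `θ`, over the Galois group of a large
field. The part of another `K j` contributes zero because the intersections are real. The part of `ρ`
is zero unless `ℚ(ρ)` contains the fixed field `T` of the kernel of `θ`, and then it is a multiple of
the corresponding sum for the norm of `ρ` to `T'`, which is zero if a power of the norm is a product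
of elements of proper subfields, as `θ` is faithful on the Galois group of `T`. So the product of the
Fourier coefficients of `c` and of the slopes of `π i` is zero, and the latter is not zero since the
norm of `π i` to `T` is indecomposable. So `c = 0`.
-/

set_option autoImplicit false

namespace Pool.Agent.Results.MP_0c8446_ag.AbelianFieldsTimesAny

open Run7.h16.MA

/-- **Conjecture D for `A × Z` and for `Z` are equivalent for norm-unrelated `Z`.** -/
theorem result : HoldsForAbelianFields fun _ K _ _ q f => HomNumTimesNorm K q f :=
  holdsForAbelian fun _ _ _ _ _ _ hq _ hR => homNumTimesNorm hq hR

end Pool.Agent.Results.MP_0c8446_ag.AbelianFieldsTimesAny
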