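import Pool.Agent.Run7.h177.PM.Final

/-!
# Homological and numerical equivalence: the permutations of the factors of a power

Let `X` be **any** smooth projective variety over **any** field and `W` **any** Weil cohomology theory; let
`b` be the sum of the Betti numbers of `X`. We study conjecture D (numerically trivial cycles are
homologically trivial) for the most explicit cycles on the powers of `X`: the linear combinations

  `Z_a = ∑_σ a_σ Γ_σ`,  `a_σ ∈ ℚ`,

of the graphs on `X ^ n × X ^ n` of the permutations `σ` of the factors of `X ^ n`; we write `PermD n` for
conjecture D for these cycles on `X ^ n × X ^ n`.

1. (*A finite list of cycles.*) `PermD n` follows from the case where `a` is one of the (finitely many)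
   central idempotents of the group algebra `ℚ[S_n]`.
2. (*Finite groups of automorphisms.*) If the numerically trivial self-correspondences of a variety `Y` are
   nilpotent, then conjecture D holds for the linear combinations of the graphs of the elements of every
   finite group of automorphisms of `Y`; in particular `PermD n` holds if `Y = X ^ n`.
3. (*Permutations suffice, effective form.*) If `PermD n` holds for **one** `n = m N` with

     `b ^ (m + 2) log (m N + 1) < 4 N`,

   then **all** numerically trivial self-correspondences of `X ^ m` (of all degrees, with coefficients in
   the coefficient field) are nilpotent. So a numerically trivial correspondence on `X ^ m × X ^ m` which is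
   not nilpotent yields a counterexample to conjecture D in an explicit finite list of cycles, which
   depends only on `m` and `b`.
4. (*Permutations suffice.*) The following are equivalent: the numerically trivial self-correspondences of
   degree zero of all powers of `X` are nilpotent; the same in all degrees and with coefficients in the
   coefficient field; conjecture D holds for the graphs of the elements of finite groups of
   automorphisms of the powers of `X`; `PermD n` holds for all `n`; `PermD n` holds for infinitely
   many `n`.
5. (*Zero-one law.*) Either `PermD n` holds for all `n`, or the classes of the permutations are almost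
   all numerically trivial: there is a number `c < 1` such that, for all large `n`, the space spanned by the
   classes of the permutations of the factors of `X ^ n`, of dimension `h n`, has numerically trivial
   part of dimension at least `(1 - c ^ n) h n`.

The nilpotence is the statement that the homological motives of the powers of `X` have the same behaviour as
finite-dimensional motives; it would follow from the sign conjecture (algebraicity of the projector to the
even cohomology), and it is of course a consequence of conjecture D for the powers of `X`. The point is that
it is *equivalent* to conjecture D for cycles which are so explicit that one needs no knowledge of the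
algebraic cycles on the powers of `X` to write them down (one needs it to decide whether they are
numerically trivial).

Proof. 1. and 2.: `ℚ[S_n]` is semisimple, so an ideal of it which consists of nilpotent operators acts by
zero. 3.: A numerically trivial correspondence on `X ^ m` which is not nilpotent yields a numerically
trivial idempotent `g ≠ 0` (Fitting); its super-trace vanishes, so its rank is at least two. Then
`(1 - g) ⊗ (1 - g)` agrees with the identity modulo numerically trivial operators, and the bound
of the numerical rank by the rank of the idempotent gives
`rank A_num (X ^ (2 m N)) ≤ (b ^ m - 2) ^ (2 N)`. On the other hand `PermD n` implies that the span of the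
permutations, of dimension at least `b ^ (2 n) / (n + 1) ^ (b ^ 2)`, injects in `A_num (X ^ (2 n)) ⊗ K`.

The numerical ranks and the span of the permutations are estimated with lemmas of the starting files
(`Pool.Agent.Y133.Half`). In the file: `pw X n` is the product of `n + 1` copies of `X`.
-/

universe u v

namespace Pool.Agent.Results.MP_0c8446_ag.PermutationsSuffice

open CategoryTheory Pool.Agent.H914 Pool.Agent.H914.VarClass Pool.Agent.Y133.Half
  Pool.Agent.Run7.h177.PM

/-- **Conjecture D for the permutations of the factors of the powers of a variety.** -/
theorem result {k : Type u} [Field k] {𝒱 : VarClass k} {ops : CycleOps 𝒱}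
    (W : WeilCohomology.{u, v} ops) (X : 𝒱.Obj) :
    (∀ n, (CentralIdempotents n).Finite ∧ (PermD W X n ↔ CentralD W X n)) ∧
    (∀ Y : 𝒱.Obj, NumNilpotent W Y → FiniteGroupD W Y) ∧
    (∀ m N n : ℕ, n + 1 = (m + 1) * N →
      (Module.finrank W.K (W.H X) : ℝ) ^ (m + 3) * Real.log (n + 2) < 4 * N →
        PermD W X n → NumNilpotentAll W (pw X m)) ∧
    List.TFAE [∀ n, NumNilpotent W (pw X n), ∀ n, NumNilpotentAll W (pw X n),
      ∀ n, FiniteGroupD W (pw X n), ∀ n, PermD W X n, ∀ n₀, ∃ n ≥ n₀, PermD W X n] ∧
    ((∀ n, PermD W X n) ∨ ∃ c : ℝ, 0 ≤ c ∧ c < 1 ∧ ∃ n₀ : ℕ, ∀ n ≥ n₀,
      (permDim W X n : ℝ) - permNumTrivDim W X n ≤ c ^ n * permDim W X n) :=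
  ⟨fun n => ⟨finite_centralIdempotents n, permD_iff_centralD⟩,
    fun _ h => finiteGroupD_of_nilpotent h, fun _ _ _ hn hlog h => effective hn hlog h,
    tfae W X, zero_one W X⟩

end Pool.Agent.Results.MP_0c8446_ag.PermutationsSuffice
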