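import Pool.Agent.Run7.h142.GD.Main
import Pool.Agent.Run7.h142.GD.Lem
import Pool.Agent.Run7.h142.GT.Gens

/-!
# Homological and numerical equivalence on products over finite fields: finitely many test products
# decide all products, also with arbitrary varieties

Let `X j` (`j < s`) be smooth projective varieties over an algebraic closure of the field with `p`
elements whose cohomology is generated, as an algebra, by algebraic cycles and by the cohomology in one
degree `d j`, for instance abelian varieties and curves (`d j = 1`), K3 surfaces (`d j = 2`), cubic
fourfolds (`d j = 4`). The Frobenius eigenvalues in the degree `d j` which do not come from algebraic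
cycles are, up to roots of unity, `q ^ (d j / 2)` times roots of the conjugates of one number `α j` in a
CM field `E (f j)`; all complex absolute values of `α j` are one (`HaveWeilNumbers`, `IsPNumber`;
`α j = π ^ 2 / q` for an abelian variety with the Weil number `π`). Any number of the `α j` may belong
to the same field, and the Newton polygons of the `X j` are arbitrary. The finitely many CM fields
`E k` have no rigid pairs (`NoRigidPairsOver`): for an embedding `x` of `E k` and an embedding `y` of
`E l` which is not `x` or its complex conjugate, some automorphism of the algebraic closure of `ℚ` fixes
`x` and maps `y` to its complex conjugate. This is true for one imaginary quadratic field, for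
different quadratic fields, and for generic CM fields of any degree (see
`MP_950c68_ag.RelationLattice` for a criterion with discriminants).

The linear relations with integral coefficients between the normalized `p`-adic valuations of the `α j`
which belong to `E k` form a group (`IsRelation`); let `B k` be a set of generators. A relation `c` has
the degree `deg c = ∑ |c j| d j`, and it has the test product `X_c`, the product of `|c j|` copies of each
`X j`.

**Theorem.** Suppose that the Tate conjecture holds for `X j × X j` in codimension `d j`, for the test
products `X_c` in codimension `deg c / 2`, for all `c ∈ B k` of even degree, and for the `X_c × X_c'`, in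
codimension `(deg c + deg c') / 2`, for all `c ∈ B k`, `c' ∈ B k'` of odd degree.
1. The set `B k` can be chosen with `# {j | f j = k} - r k` elements, where `r k` is the rank of the
   valuations of the numbers in `E k`. So there are at most `s` test products besides the `X j × X j`.
2. **Homological and numerical equivalence coincide on all products** of copies of the `X j` (with any
   multiplicities, and also with varieties all of whose cohomology is algebraic), in all codimensions.
3. If the degrees of all `c ∈ B k` are even then for **all** such products `Z` and **all** smooth
   projective varieties `U` whose slopes are determined by a field `L` over which there are no rigid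
   pairs (for instance the field generated by the Frobenius eigenvalues of `U` and their conjugates):
   homological and numerical equivalence coincide on `Z × U` in codimension `c` **if and only if** they
   coincide on `U` in all codimensions `c - i` for which `Z` has a homologically nontrivial cycle of
   codimension `i`. More precisely, let `n_c` be the dimension of the space of the numerically
   trivial combinations of algebraic classes of codimension `c`, and let `ρ_c` be the dimension of
   the space of all combinations of algebraic classes; then `n_c (Z × U) = ∑ ρ_i (Z) n_j (U)`,
   the sum over `i + j = c`. Nothing else is assumed on `U`.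
4. The degrees of all relations are even if all `d j` are even, or if for each `k` there is one embedding
   of `E k` for which the valuations of the Weil numbers in `E k` are integers (`v (q) = 1`).

The test products are known for abelian varieties if the group of relations is generated by relations
of degree two (by the theorem of Tate), for instance if there are no relations; the `X j × X j` are also
known for K3 surfaces of finite height. So the theorem is unconditional in these cases. In general the
hypothesis consists of finitely many cases of the Tate conjecture, in the middle codimensions of explicit
products, and the conclusion is the equality of the two equivalence relations for infinitely many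
products, also with arbitrary varieties `U`. For instance, if `A` is an abelian threefold whose Weil
number belongs to an imaginary quadratic field `E` (slopes `1/3`, `2/3`) and `C` is an ordinary elliptic
curve with the same field then the Tate conjecture in codimension two on the product of `A`, `A`, `A`
and `C` is enough for all `A ^ a × C ^ b × U`.

For abelian varieties over finite fields the equality of homological and numerical equivalence is known
for infinitely many primes `ℓ` (Clozel), not for all. The products with arbitrary varieties, and the
other varieties `X j`, are not covered by his theorem.

The proof. By the theorem on the relation lattice (`MP_950c68_ag.RelationLattice`) the Tate classes on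
the products of `Z` with arbitrary spaces on which Frobenius has slopes determined by `L` are
combinations of products with algebraic classes of `Z`. So a perfect pairing of the algebraic
classes of `Z` in complementary degrees, and a splitting of the algebraic classes of `Z × U`, exist, and
the numerically trivial classes are computed as in the starting files `TH132/P`.
-/

set_option autoImplicit false

open CategoryTheory AlgebraicGeometry NumberField

universe u v

namespace Pool.Agent.Results.MP_0c8446_ag.RelationLatticeNumerical

open Pool.Agent.H914 Pool.Agent.H447 Pool.Agent.W534 Pool.Agent.TH132.A Pool.Agent.TH121.KT
  Pool.Agent.Run7.h142.LT Pool.Agent.Run7.h142.GT Pool.Agent.Run7.h142.GP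
  Pool.Agent.Run7.h142.GD VarClass Obj WeilCohomology

/-- **Homological and numerical equivalence coincide on all products of given varieties, and on the
products with arbitrary varieties they coincide if and only if they do on these varieties, if the Tate
conjecture holds for the test products of generators of the groups of relations.** -/
theorem result :
    (∀ (p : ℕ) [Fact p.Prime] (κ : Type) (E : κ → Type) [∀ k, Field (E k)] (s : ℕ)
      (f : Fin s → κ) (α : ∀ j, E (f j)) (n : Fin s → ℕ),
      ∃ B : κ → Finset (Fin s → ℤ), (∀ k, Generates (B k : Set _) (IsRelation p α n k)) ∧
        ∀ k, (B k).card + slopeRank p α n k = Nat.card {j // f j = k}) ∧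
    (∀ {k : Type u} [Field k] {𝒱 : VarClass k} {ops : CycleOps 𝒱}
      (W : WeilCohomology.{u, v} ops) [IsAlgClosed W.K] (p : ℕ) [Fact p.Prime]
      (Φ : FrobSystem W p) (κ : Type) [Fintype κ] (E : κ → Type) [∀ k, Field (E k)]
      [∀ k, NumberField (E k)] [∀ k, IsCMField (E k)] (s : ℕ) (f : Fin s → κ)
      (α : ∀ j, E (f j)) (X : Fin s → 𝒱.Obj) (d e : Fin s → ℕ) (B : κ → Set (Fin s → ℤ)),
      IsPNumber p α d → HaveWeilNumbers (K := fun j => E (f j)) Φ α X d e →
      (∀ k, Generates (B k) (IsRelation p α (degs Φ X e) k)) →
      ForGenerators (fun Z m => TateTo Φ Z 1 m) X d B →
        (NoRigidPairsOver E ⊥ → ∀ Z, IsProduct W X Z → ∀ c ≤ Z.dim, HomEqNumIn W Z c) ∧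
        ∀ L : IntermediateField ℚ (AlgebraicClosure ℚ), NoRigidPairsOver E L →
          (∀ k, ∀ c ∈ B k, Even (degOf d c)) → ∀ Z, IsProduct W X Z →
          ∀ (ι : AlgebraicClosure ℚ →+* PadicAlgCl p) (U : 𝒱.Obj), FrobeniusSlopes Φ ι L U →
          ∀ c ≤ (Z.prod U).dim,
            (HomEqNumIn W (Z.prod U) c ↔ ∀ i ≤ c, HasCycle W Z i → c - i ≤ U.dim →
              HomEqNumIn W U (c - i)) ∧
            trivialRank W (Z.prod U) c =
              ∑ i ∈ Finset.range (c + 1), rk (spanCycles W Z i) * trivialRank W U (c - i)) ∧
    ∀ (p : ℕ) [Fact p.Prime] (κ : Type) (E : κ → Type) [∀ k, Field (E k)] (s : ℕ)
      (f : Fin s → κ) (α : ∀ j, E (f j)) (d n : Fin s → ℕ),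
      ((∀ j, Even (d j)) ∨ HasIntegralPlaces p α d n) →
        ∀ k c, IsRelation p α n k c → Even (degOf d c) := by
  refine ⟨?_, ?_, ?_⟩
  · intro p _ κ E _ s f α n
    obtain ⟨B, h1, h2⟩ := exists_generators p α n
    refine ⟨B, fun k c => ?_, h2⟩
    rw [h1 k]
    exact Iff.rfl
  · intro k _ 𝒱 ops W _ p _ Φ κ _ E _ _ _ s f α X d e B hα hX hB h
    refine ⟨fun hE Z hZ c hc => homEqNumIn_of (homEqNum_products hX hα hE h hB hZ) hc,
      fun L hE hev Z hZ ι U hU c hc => ?_⟩
    have h1 := homEqNum_gen hX hα hE h hB hev hZ hU hc
    refine ⟨h1.1, ?_⟩
    simp only [trivialRank_eq]
    exact h1.2
  · intro p _ κ E _ s f α d n h k c hc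
    rcases h with h | h
    · exact even_of_all h c
    · exact even_of_places h k c hc

end Pool.Agent.Results.MP_0c8446_ag.RelationLatticeNumerical
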